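import Pool.Agent.H712R2.MultiBott

/-!
# Job 4102 (LC-SHR): contraction of inverse branches near a repelling fixed point
-/

set_option autoImplicit false

open Complex Filter Topology Metric Set

namespace Pool.Agent.Y333.LC

open Pool.Agent.H712R2

lemma deriv_fc (d : ℕ) (c z : ℂ) : deriv (fc d c) z = d * z ^ (d - 1) := by
  have h1 : HasDerivAt (fc d c) (d * z ^ (d - 1)) z := by
    have h2 := (hasDerivAt_pow d z).add_const c
    exact h2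
  exact h1.deriv

/-- the divided difference of `z ^ d` -/
lemma Q_near (d : ℕ) (b0 : ℂ) (hrep : 1 < ‖(d : ℂ) * b0 ^ (d - 1)‖) : ∃ μ ρ : ℝ, 1 < μ ∧ 0 < ρ ∧ ∀ u b : ℂ,
    ‖u - b0‖ < ρ → ‖b - b0‖ < ρ → μ * ‖u - b‖ ≤ ‖u ^ d - b ^ d‖ := by
  set Q : ℂ × ℂ → ℂ := fun p => ∑ k ∈ Finset.range d, p.1 ^ k * p.2 ^ (d - 1 - k) with hQ
  have hQc : Continuous Q := by
    rw [hQ]
    fun_prop
  have hQ0 : Q (b0, b0) = (d : ℂ) * b0 ^ (d - 1) := by
    rw [hQ]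
    dsimp only
    rw [Finset.sum_congr rfl (g := fun _ => b0 ^ (d - 1))]
    · simp
    · intro k hk
      rw [Finset.mem_range] at hk
      rw [← pow_add]
      congr 1
      omega
  obtain ⟨μ, hμ1, hμ2⟩ := exists_between hrep
  rw [← hQ0] at hμ2
  have h1 : ∀ᶠ p in 𝓝 (b0, b0), μ < ‖Q p‖ := hQc.norm.continuousAt.eventually (lt_mem_nhds hμ2)
  obtain ⟨ρ, hρ, h2⟩ := Metric.eventually_nhds_iff.1 h1
  refine ⟨μ, ρ, hμ1, hρ, fun u b hu hb => ?_⟩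
  have h3 : μ < ‖Q (u, b)‖ := by
    apply h2
    rw [Prod.dist_eq, max_lt_iff, dist_eq_norm, dist_eq_norm]
    exact ⟨hu, hb⟩
  have h4 : Q (u, b) * (u - b) = u ^ d - b ^ d := (Commute.all u b).geom_sum₂_mul d
  rw [← h4, norm_mul]
  exact mul_le_mul_of_nonneg_right h3.le (norm_nonneg _)

/-- contraction -/
lemma contr (d : ℕ) (b0 : ℂ) (hrep : 1 < ‖(d : ℂ) * b0 ^ (d - 1)‖) {δ R : ℝ} (hδ : 0 < δ) (hR : 0 < R) :
    ∃ r μ ρ : ℝ, 0 < r ∧ r ≤ δ / 8 ∧ 0 ≤ μ ∧ μ < 1 ∧ 0 < ρ ∧ ρ ≤ r ∧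
      ∀ (c b : ℂ) (g : ℂ → ℂ), ‖b - b0‖ ≤ ρ → DifferentiableOn ℂ g (ball b0 δ) →
        (∀ z ∈ ball b0 δ, ‖g z‖ ≤ R) → (∀ z ∈ ball b0 δ, fc d c (g z) = z) → g b = b →
        ∀ z, ‖z - b‖ ≤ 2 * r → ∀ m : ℕ, ‖g^[m] z - b‖ ≤ μ ^ m * ‖z - b‖ := by
  obtain ⟨μ₀, ρ₀, hμ₀, hρ₀, hQ⟩ := Q_near d b0 hrep
  set K := (2 * R + 1) / (δ / 2) with hK
  have hK0 : 0 < K := by positivity
  have hμp : 0 < μ₀ := by linarith
  refine ⟨min (δ / 8) (ρ₀ / (4 * (K + 1))), μ₀⁻¹, min (min (δ / 8) (ρ₀ / (4 * (K + 1)))) (ρ₀ / 4),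
    lt_min (by positivity) (by positivity), min_le_left _ _, by positivity, inv_lt_one_of_one_lt₀ hμ₀,
    lt_min (lt_min (by positivity) (by positivity)) (by positivity), min_le_left _ _, ?_⟩
  intro c b g hb hgd hgR hgf hgb
  set r := min (δ / 8) (ρ₀ / (4 * (K + 1))) with hr
  have hr1 : r ≤ δ / 8 := min_le_left _ _
  have hr2 : r ≤ ρ₀ / (4 * (K + 1)) := min_le_right _ _
  have hb1 : ‖b - b0‖ ≤ δ / 8 := hb.trans ((min_le_left _ _).trans hr1)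
  have hb2 : ‖b - b0‖ ≤ ρ₀ / 4 := hb.trans (min_le_right _ _)
  have hbU : b ∈ ball b0 δ := by
    rw [mem_ball, dist_eq_norm]
    linarith
  have hbR : ‖b‖ ≤ R := by
    have := hgR b hbU
    rwa [hgb] at this
  have hsub : ball b (δ / 2) ⊆ ball b0 δ := by
    intro z hz
    rw [mem_ball, dist_eq_norm] at hz ⊢
    calc ‖z - b0‖ = ‖(z - b) + (b - b0)‖ := by ring_nf
      _ ≤ ‖z - b‖ + ‖b - b0‖ := norm_add_le _ _
      _ < δ := by linarith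
  have hstep : ∀ z, ‖z - b‖ ≤ 2 * r → ‖g z - b‖ ≤ μ₀⁻¹ * ‖z - b‖ := by
    intro z hz
    have hzb : z ∈ ball b (δ / 2) := by
      rw [mem_ball, dist_eq_norm]
      linarith
    have h1 : dist (g z) (g b) ≤ K * dist z b := by
      refine Complex.dist_le_div_mul_dist_of_mapsTo_ball (hgd.mono hsub) ?_ hzb
      intro w hw
      rw [mem_closedBall, dist_eq_norm, hgb]
      have := hgR w (hsub hw)
      calc ‖g w - b‖ ≤ ‖g w‖ + ‖b‖ := norm_sub_le _ _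
        _ ≤ 2 * R + 1 := by linarith
    rw [hgb, dist_eq_norm, dist_eq_norm] at h1
    have h2 : K * ‖z - b‖ ≤ ρ₀ / 2 := by
      calc K * ‖z - b‖ ≤ (K + 1) * (2 * (ρ₀ / (4 * (K + 1)))) := by
            apply mul_le_mul (by linarith) (by linarith) (norm_nonneg _) (by linarith)
        _ = ρ₀ / 2 := by field_simp; norm_num
    have h3 : ‖g z - b0‖ < ρ₀ := by
      calc ‖g z - b0‖ = ‖(g z - b) + (b - b0)‖ := by ring_nf
        _ ≤ ‖g z - b‖ + ‖b - b0‖ := norm_add_le _ _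
        _ < ρ₀ := by linarith
    have h4 := hQ (g z) b h3 (by linarith)
    have h5 : g z ^ d - b ^ d = z - b := by
      have e1 := hgf z (hsub hzb)
      have e2 := hgf b hbU
      rw [hgb] at e2
      unfold fc at e1 e2
      linear_combination e1 - e2
    rw [h5] at h4
    rw [inv_mul_eq_div, le_div_iff₀ hμp, mul_comm]
    exact h4
  intro z hz m
  induction m with
  | zero => simp
  | succ m ih =>
    have hμ1 : μ₀⁻¹ ^ m ≤ 1 := pow_le_one₀ (by positivity) (inv_lt_one_of_one_lt₀ hμ₀).le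
    have h1 : ‖g^[m] z - b‖ ≤ 2 * r := by
      calc ‖g^[m] z - b‖ ≤ μ₀⁻¹ ^ m * ‖z - b‖ := ih
        _ ≤ 1 * ‖z - b‖ := mul_le_mul_of_nonneg_right hμ1 (norm_nonneg _)
        _ ≤ 2 * r := by linarith
    rw [Function.iterate_succ_apply', pow_succ']
    calc ‖g (g^[m] z) - b‖ ≤ μ₀⁻¹ * ‖g^[m] z - b‖ := hstep _ h1
      _ ≤ μ₀⁻¹ * (μ₀⁻¹ ^ m * ‖z - b‖) := mul_le_mul_of_nonneg_left ih (by positivity)
      _ = μ₀⁻¹ * μ₀⁻¹ ^ m * ‖z - b‖ := by ring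

lemma preconn_thickening {X : Set ℂ} (hX : IsPreconnected X) (δ : ℝ) : IsPreconnected (thickening δ X) := by
  rcases X.eq_empty_or_nonempty with rfl | hne
  · rw [thickening_empty]
    exact isPreconnected_empty
  rcases le_or_gt δ 0 with hδ | hδ
  · rw [thickening_of_nonpos hδ]
    exact isPreconnected_empty
  have h1 : thickening δ X = ⋃ x : X, (X ∪ ball (x : ℂ) δ) := by
    ext z
    rw [mem_thickening_iff, mem_iUnion]
    constructor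
    · rintro ⟨x, hx, hz⟩
      exact ⟨⟨x, hx⟩, Or.inr hz⟩
    · rintro ⟨x, hz | hz⟩
      · exact ⟨z, hz, by rw [dist_self]; exact hδ⟩
      · exact ⟨x, x.2, hz⟩
  rw [h1]
  obtain ⟨x₀, hx₀⟩ := hne
  refine isPreconnected_iUnion ⟨x₀, mem_iInter.2 fun x => Or.inl hx₀⟩ fun x => ?_
  exact hX.union (x : ℂ) x.2 (mem_ball_self hδ) (convex_ball _ _).isPreconnected

end Pool.Agent.Y333.LC
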