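import Pool.Agent.Y272.LC.Stm2
import Pool.Agent.Y333.LC.ShrA

/-!
# Job 4102 (LC-SHR): the loops around the landing point of the ray of angle `0` shrink
-/

set_option autoImplicit false

open Complex Filter Topology Metric Set

namespace Pool.Agent.Y333.LC

open Pool.Agent.H712R2 Pool.Agent.H713R2 Pool.Agent.H713R2.AR Pool.Agent.Y272.TY Pool.Agent.Y272.LC

lemma zt_re (s t : ℝ) : (zt s t).re = s := by
  unfold zt
  simp

lemma mul_zt (d : ℕ) (s t : ℝ) : (d : ℂ) * zt s t = zt (d * s) (d * t) := by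
  unfold zt
  push_cast
  ring

lemma continuous_zt : Continuous (fun p : ℝ × ℝ => zt p.1 p.2) := by
  unfold zt
  fun_prop

variable {d : ℕ} {Φ : ℂ → ℂ → ℂ} {β : ℂ → ℂ} {c0 : ℂ} {θ : ℝ} {i : ℤ} {x₁ x₂ ε : ℝ} {A₁ A₂ D₁ D₂ B : ℂ → ℝ → ℂ}

lemma esc (h : Dat d Φ β c0 θ i x₁ x₂ ε A₁ A₂ D₁ D₂ B) {G : ℝ} (hG : 0 < G) : Esc d Φ (pa β θ G) θ G := by
  have h1 := h.bott.par β h.beta (zt G θ) (by rw [zt_re]; exact hG)
  rw [zt_re] at h1
  exact ⟨hG, h1.1, h1.2⟩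

/-- the union of the three rays and the cap -/
def XX (Φ : ℂ → ℂ → ℂ) (c0 : ℂ) (d : ℕ) (x₁ x₂ : ℝ) (D₁ D₂ B : ℂ → ℝ → ℂ) : Set ℂ :=
  (((fun t : ℝ => Φ c0 (zt (1 / d) t)) '' Icc ((x₂ - 1) / d) (x₁ / d) ∪ D₁ c0 '' Icc 0 (1 / (d : ℝ))) ∪
    D₂ c0 '' Icc 0 (1 / (d : ℝ))) ∪ B c0 '' Icc 0 (1 / (d : ℝ))

lemma angles (h : Dat d Φ β c0 θ i x₁ x₂ ε A₁ A₂ D₁ D₂ B) : 0 < x₁ ∧ x₁ < θ ∧ θ < x₂ ∧ x₂ < 1 ∧
    (θ : ℝ) + i < d * θ ∧ d * θ < θ + i + 1 := by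
  have hd : (2 : ℝ) ≤ d := by exact_mod_cast h.d2
  have hd0 : (0 : ℝ) < d := by linarith
  have hi0 : (0 : ℝ) ≤ i := by exact_mod_cast h.i0
  have hi1 : (i : ℝ) + 2 ≤ d := by exact_mod_cast h.i1
  have h1 := h.x1l
  have h2 := h.x1r
  have h3 := h.x2l
  have h4 := h.x2r
  have h5 := h.th0
  have h6 := h.th1
  rw [div_lt_iff₀ hd0] at h1
  rw [lt_div_iff₀ hd0] at h4
  refine ⟨?_, h2, h3, ?_, ?_, ?_⟩
  · have : 0 < x₁ * d := by linarith
    exact pos_of_mul_pos_left this hd0.le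
  · by_contra hc
    push Not at hc
    nlinarith
  · nlinarith
  · nlinarith

lemma ray_cont {t : ℝ} {X : ℂ → ℝ → ℂ} (hX : Ray d Φ c0 ε t X) {c : ℂ}
    (hc : c ∈ ball c0 ε) : ContinuousOn (X c) (Ici 0) :=
  hX.cont.comp (f := fun s : ℝ => (c, s)) (by fun_prop) fun s hs => ⟨hc, hs⟩

lemma XX_props (h : Dat d Φ β c0 θ i x₁ x₂ ε A₁ A₂ D₁ D₂ B) :
    IsCompact (XX Φ c0 d x₁ x₂ D₁ D₂ B) ∧ IsPreconnected (XX Φ c0 d x₁ x₂ D₁ D₂ B) := by
  have hd : (2 : ℝ) ≤ d := by exact_mod_cast h.d2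
  have hd0 : (0 : ℝ) < d := by linarith
  obtain ⟨a1, a2, a3, a4, -, -⟩ := angles h
  have hc0 : c0 ∈ ball c0 ε := mem_ball_self h.eps
  have hI : (1 / (d : ℝ)) ∈ Icc (0 : ℝ) (1 / (d : ℝ)) := ⟨by positivity, le_rfl⟩
  have hI2 : Icc (0 : ℝ) (1 / (d : ℝ)) ⊆ Ici 0 := fun s hs => hs.1
  have hgr : green d c0 0 < 1 / (d : ℝ) := by rw [h.conn]; positivity
  have k1 : ContinuousOn (D₁ c0) (Icc 0 (1 / (d : ℝ))) := (ray_cont h.rD1 hc0).mono hI2
  have k2 : ContinuousOn (D₂ c0) (Icc 0 (1 / (d : ℝ))) := (ray_cont h.rD2 hc0).mono hI2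
  have k3 : ContinuousOn (B c0) (Icc 0 (1 / (d : ℝ))) := (ray_cont h.rB hc0).mono hI2
  have k0 : ContinuousOn (fun t : ℝ => Φ c0 (zt (1 / d) t)) (Icc ((x₂ - 1) / d) (x₁ / d)) := by
    refine h.bott.cont.comp (f := fun t : ℝ => (c0, zt (1 / d) t)) ?_ fun t _ => ?_
    · have := continuous_zt
      fun_prop
    · change green d c0 0 < (zt (1 / d) t).re
      rw [zt_re]
      exact hgr
  have hlt : (x₂ - 1) / (d : ℝ) ≤ x₁ / d := div_le_div_of_nonneg_right (by linarith) hd0.le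
  have m1 : D₁ c0 (1 / d) ∈ (fun t : ℝ => Φ c0 (zt (1 / d) t)) '' Icc ((x₂ - 1) / d) (x₁ / d) :=
    ⟨x₁ / d, ⟨hlt, le_rfl⟩, (h.rD1.eq c0 hc0 _ hgr).symm⟩
  have m2 : D₂ c0 (1 / d) ∈ (fun t : ℝ => Φ c0 (zt (1 / d) t)) '' Icc ((x₂ - 1) / d) (x₁ / d) :=
    ⟨(x₂ - 1) / d, ⟨le_rfl, hlt⟩, (h.rD2.eq c0 hc0 _ hgr).symm⟩
  have m3 : B c0 (1 / d) ∈ (fun t : ℝ => Φ c0 (zt (1 / d) t)) '' Icc ((x₂ - 1) / d) (x₁ / d) :=
    ⟨0, ⟨div_nonpos_of_nonpos_of_nonneg (by linarith) hd0.le, by positivity⟩, (h.rB.eq c0 hc0 _ hgr).symm⟩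
  constructor
  · exact (((isCompact_Icc.image_of_continuousOn k0).union (isCompact_Icc.image_of_continuousOn k1)).union
      (isCompact_Icc.image_of_continuousOn k2)).union (isCompact_Icc.image_of_continuousOn k3)
  · have p0 := isPreconnected_Icc.image _ k0
    have p1 := isPreconnected_Icc.image _ k1
    have p2 := isPreconnected_Icc.image _ k2
    have p3 := isPreconnected_Icc.image _ k3
    refine IsPreconnected.union (B c0 (1 / d)) (Or.inl (Or.inl m3)) ⟨_, hI, rfl⟩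
      (IsPreconnected.union (D₂ c0 (1 / d)) (Or.inl m2) ⟨_, hI, rfl⟩
        (IsPreconnected.union (D₁ c0 (1 / d)) m1 ⟨_, hI, rfl⟩ p0 p1) p2) p3

/-- the slit does not meet the neighbourhood -/
lemma slit_far {δ G : ℝ}
    (hS : ∀ s : ℝ, G ≤ s → (∀ u ∈ Icc 0 (1 / (d : ℝ)), δ ≤ ‖Φ (pa β θ G) (zt s θ) - D₁ c0 u‖ ∧
      δ ≤ ‖Φ (pa β θ G) (zt s θ) - D₂ c0 u‖ ∧ δ ≤ ‖Φ (pa β θ G) (zt s θ) - B c0 u‖) ∧
    ∀ t ∈ Icc ((x₂ - 1) / d) (x₁ / d), δ ≤ ‖Φ (pa β θ G) (zt s θ) - Φ c0 (zt (1 / d) t)‖) :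
    thickening δ (XX Φ c0 d x₁ x₂ D₁ D₂ B) ⊆ (Sl Φ (pa β θ G) θ G)ᶜ := by
  intro z hz
  rintro ⟨s, hs, rfl⟩
  rw [mem_thickening_iff] at hz
  obtain ⟨y, hy, hzy⟩ := hz
  rw [dist_eq_norm] at hzy
  obtain ⟨h1, h2⟩ := hS s hs
  rcases hy with ((⟨t, ht, rfl⟩ | ⟨u, hu, rfl⟩) | ⟨u, hu, rfl⟩) | ⟨u, hu, rfl⟩
  · exact absurd (h2 t ht) (not_le.2 hzy)
  · exact absurd (h1 u hu).1 (not_le.2 hzy)
  · exact absurd (h1 u hu).2.1 (not_le.2 hzy)
  · exact absurd (h1 u hu).2.2 (not_le.2 hzy)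

/-- the inverse branch of index `-1` -/
lemma branch (hG : St_Grn) (hB : St_Br) (hC : St_Cb) (h : Dat d Φ β c0 θ i x₁ x₂ ε A₁ A₂ D₁ D₂ B) {G : ℝ}
    (hG0 : 0 < G) (hc : pa β θ G ∈ ball c0 ε) :
    ∃ g : ℂ → ℂ, (∀ m : ℕ, DifferentiableOn ℂ (g^[m]) (Sl Φ (pa β θ G) θ G)ᶜ ∧
        ∀ z ∉ Sl Φ (pa β θ G) θ G, green d (pa β θ G) (g^[m] z) ≤ green d (pa β θ G) z) ∧
      (∀ z ∉ Sl Φ (pa β θ G) θ G, fc d (pa β θ G) (g z) = z) ∧
      g (B (pa β θ G) 0) = B (pa β θ G) 0 ∧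
      ∀ s t : ℝ, G < s → θ - 1 < t → t < θ → g (Φ (pa β θ G) (zt s t)) = Φ (pa β θ G) (zt (s / d) (t / d)) := by
  obtain ⟨-, hgm, -, -⟩ := hG d h.d2
  have hE := esc h hG0
  obtain ⟨hcl, g, hg⟩ := hB d Φ h.d2 h.bott _ θ G hE
  set c := pa β θ G with hcdef
  have hd : (2 : ℝ) ≤ d := by exact_mod_cast h.d2
  have hd0 : (0 : ℝ) < d := by linarith
  obtain ⟨a1, a2, a3, a4, a5, a6⟩ := angles h
  have hGd : G / d < G := div_lt_self hG0 (by linarith)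
  have hmaps : ∀ z ∉ Sl Φ c θ G, g (-1) z ∉ Sl Φ c θ G := by
    rintro z hz ⟨s, hs, hgz⟩
    have h1 := hg.inv (-1) z hz
    rw [hgz, h.bott.map c _ (by rw [zt_re, hE.crit]; linarith), mul_zt] at h1
    have h2 := hg.ray i (d * s) (d * θ) (by nlinarith) a5 a6
    rw [mul_div_cancel_left₀ _ hd0.ne', mul_div_cancel_left₀ _ hd0.ne', h1] at h2
    have h3 := (hg.disj i (-1) z hz z hz (h2.trans hgz.symm)).1
    obtain ⟨k, hk⟩ := h3
    have hi0 := h.i0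
    have hi1 := h.i1
    have hk1 : 0 < k := by
      by_contra hcon
      push Not at hcon
      have : (d : ℤ) * k ≤ 0 := mul_nonpos_of_nonneg_of_nonpos (by positivity) hcon
      omega
    have hk2 : (d : ℤ) ≤ d * k := le_mul_of_one_le_right (by positivity) hk1
    omega
  have hmt : MapsTo (g (-1)) (Sl Φ c θ G)ᶜ (Sl Φ c θ G)ᶜ := fun z hz => hmaps z hz
  refine ⟨g (-1), fun m => ⟨DifferentiableOn.iterate (hg.hol (-1)) hmt m, ?_⟩, hg.inv (-1), ?_, ?_⟩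
  · intro z hz
    induction m with
    | zero => exact le_rfl
    | succ m ih =>
      have h1 : (g (-1))^[m] z ∉ Sl Φ c θ G := hmt.iterate m hz
      have h2 := hgm c (g (-1) ((g (-1))^[m] z))
      rw [hg.inv (-1) _ h1] at h2
      rw [Function.iterate_succ_apply']
      have h3 := green_nonneg h.d2 c (g (-1) ((g (-1))^[m] z))
      nlinarith
  · have h1 := hC d Φ h.d2 h.bott c θ G hE g hg 0 (-1) (B c) (B c) (by
      push_cast
      linarith [h.th1]) (by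
      push_cast
      linarith [h.th0]) (ray_cont h.rB hc) (ray_cont h.rB hc) (fun s hs => by
        have h2 := h.rB.eq c hc s (by rw [hE.crit]; exact hs)
        rw [mul_zero]
        exact ⟨h2, h2⟩) (fun s hs => ⟨h.rB.grn c hc s hs, h.rB.grn c hc s hs, h.eqB c hc s hs⟩) 0 le_rfl
    rw [mul_zero] at h1
    exact h1.2
  · intro s t hs ht1 ht2
    refine hg.ray (-1) s t hs ?_ ?_
    · push_cast
      linarith
    · push_cast
      linarith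

theorem t (hG : St_Grn) (hS : St_Sla) (hB : St_Br) (hC : St_Cb) (hV : St_Vit) : St_Shr := by
  intro d Φ β c0 θ i x₁ x₂ ε A₁ A₂ D₁ D₂ B h η hη
  obtain ⟨hgc, -, -, -⟩ := hG d h.d2
  have hd : (2 : ℝ) ≤ d := by exact_mod_cast h.d2
  have hd0 : (0 : ℝ) < d := by linarith
  obtain ⟨a1, a2, a3, a4, a5, a6⟩ := angles h
  obtain ⟨δ, G₁, hδ, hG₁, hSl⟩ := hS d Φ β c0 θ i x₁ x₂ ε A₁ A₂ D₁ D₂ B h
  obtain ⟨hXc, hXp⟩ := XX_props h
  set X := XX Φ c0 d x₁ x₂ D₁ D₂ B with hX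
  have hc0 : c0 ∈ ball c0 ε := mem_ball_self h.eps
  set b0 := B c0 0 with hb0
  have hb0X : b0 ∈ X := Or.inr ⟨0, ⟨le_rfl, by positivity⟩, rfl⟩
  -- the bound
  obtain ⟨M, hM⟩ := ((isCompact_closedBall c0 1).prod (hXc.cthickening (r := δ))).exists_bound_of_continuousOn
    hgc.continuousOn
  set A := ‖c0‖ + 1 with hA
  have hA1 : 1 ≤ A := by
    have := norm_nonneg c0
    linarith
  set R := 2 * A * Real.exp M with hR
  have hR0 : 0 < R := by positivity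
  have hrep : 1 < ‖(d : ℂ) * b0 ^ (d - 1)‖ := by
    have := h.rep
    rwa [deriv_fc] at this
  obtain ⟨r, μ, ρ, hr, hrδ, hμ0, hμ1, hρ, hρr, hcon⟩ := contr d b0 hrep hδ hR0
  have hballU : ball b0 δ ⊆ thickening δ X := ball_subset_thickening hb0X δ
  have hballr : ball b0 r ⊆ thickening δ X := (ball_subset_ball (by linarith)).trans hballU
  obtain ⟨εv, hεv, hVit⟩ := hV (thickening δ X) (cthickening (δ / 2) X) b0 r R η isOpen_thickening
    (preconn_thickening hXp δ) hXc.cthickening (cthickening_subset_thickening' hδ (by linarith) X) hr hballr hR0 hη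
  obtain ⟨m₀, hm₀⟩ := exists_pow_lt_of_lt_one (show (0 : ℝ) < εv / (4 * r) by positivity) hμ1
  -- the parameters
  have hev : ∀ᶠ G in 𝓝[>] (0 : ℝ), 0 < G ∧ G < G₁ ∧ pa β θ G ∈ ball c0 ε ∧ pa β θ G ∈ closedBall c0 1 ∧
      ‖B (pa β θ G) 0 - b0‖ ≤ min ρ (εv / 2) := by
    have e1 : ∀ᶠ G in 𝓝[>] (0 : ℝ), 0 < G := eventually_mem_nhdsWithin
    have e2 : ∀ᶠ G in 𝓝[>] (0 : ℝ), G < G₁ := mem_nhdsWithin_of_mem_nhds (gt_mem_nhds hG₁)
    have e3 : ∀ᶠ G in 𝓝[>] (0 : ℝ), pa β θ G ∈ ball c0 ε := h.land (ball_mem_nhds _ h.eps)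
    have e4 : ∀ᶠ G in 𝓝[>] (0 : ℝ), pa β θ G ∈ closedBall c0 1 :=
      h.land (closedBall_mem_nhds _ one_pos)
    have e5 : Tendsto (fun G => B (pa β θ G) 0) (𝓝[>] (0 : ℝ)) (𝓝 b0) := by
      have h1 : ContinuousAt (fun c => B c 0) c0 :=
        (h.rB.hol.differentiableAt (ball_mem_nhds _ h.eps)).continuousAt
      exact h1.tendsto.comp h.land
    have e6 : ∀ᶠ G in 𝓝[>] (0 : ℝ), ‖B (pa β θ G) 0 - b0‖ < min ρ (εv / 2) := by
      have h2 := e5 (ball_mem_nhds b0 (show 0 < min ρ (εv / 2) by positivity))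
      filter_upwards [h2] with G hG2
      rw [mem_preimage, mem_ball, dist_eq_norm] at hG2
      exact hG2
    filter_upwards [e1, e2, e3, e4, e6] with G h1 h2 h3 h4 h5
    exact ⟨h1, h2, h3, h4, h5.le⟩
  -- the main bound
  have key : ∀ (m : ℕ), m₀ ≤ m → ∀ s' t' : ℝ, 0 < s' → t' ∈ Icc ((x₂ - 1) / d) (x₁ / d) → Φ c0 (zt s' t') ∈ X →
      ‖Φ c0 (zt (s' / (d : ℝ) ^ m) (t' / (d : ℝ) ^ m)) - b0‖ ≤ η := by
    intro m hm s' t' hs' ht' hmem
    have hcA : ∀ s t : ℝ, 0 < s → Tendsto (fun G => Φ (pa β θ G) (zt s t)) (𝓝[>] (0 : ℝ)) (𝓝 (Φ c0 (zt s t))) := by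
      intro s t hs
      have hopen : IsOpen {q : ℂ × ℂ | green d q.1 0 < q.2.re} := by
        refine isOpen_lt ?_ (by fun_prop)
        exact hgc.comp (f := fun q : ℂ × ℂ => (q.1, (0 : ℂ))) (by fun_prop)
      have h1 : ContinuousAt (fun q : ℂ × ℂ => Φ q.1 q.2) (c0, zt s t) := by
        refine h.bott.cont.continuousAt (hopen.mem_nhds ?_)
        change green d c0 0 < (zt s t).re
        rw [zt_re, h.conn]
        exact hs
      have h2 : Tendsto (fun G => (pa β θ G, zt s t)) (𝓝[>] (0 : ℝ)) (𝓝 (c0, zt s t)) :=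
        h.land.prodMk_nhds tendsto_const_nhds
      exact h1.tendsto.comp h2
    have hsm : 0 < s' / (d : ℝ) ^ m := by positivity
    refine le_of_tendsto ((hcA _ (t' / (d : ℝ) ^ m) hsm).sub_const b0).norm ?_
    have e1 : ∀ᶠ G in 𝓝[>] (0 : ℝ), G < s' / (d : ℝ) ^ m := mem_nhdsWithin_of_mem_nhds (gt_mem_nhds hsm)
    have e2 : ∀ᶠ G in 𝓝[>] (0 : ℝ), Φ (pa β θ G) (zt s' t') ∈ thickening (δ / 2) X :=
      hcA s' t' hs' (isOpen_thickening.mem_nhds (self_subset_thickening (by linarith) X hmem))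
    filter_upwards [hev, e1, e2] with G hG1 hGs hGX
    obtain ⟨hG0, hG2, hcε, hc1, hcb⟩ := hG1
    obtain ⟨g, hgi, hgf, hgb, hgr⟩ := branch hG hB hC h hG0 hcε
    have hU := slit_far (hSl G hG0 hG2)
    rw [← hX] at hU
    set c := pa β θ G with hcdef
    have hcA' : ‖c‖ ≤ A := by
      rw [mem_closedBall, dist_eq_norm] at hc1
      calc ‖c‖ = ‖(c - c0) + c0‖ := by ring_nf
        _ ≤ ‖c - c0‖ + ‖c0‖ := norm_add_le _ _
        _ ≤ A := by rw [hA]; linarith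
    have hbd : ∀ (m : ℕ), ∀ z ∈ thickening δ X, ‖g^[m] z‖ ≤ R := by
      intro m z hz
      have h1 := (hgi m).2 z (hU hz)
      have h2 := hM (c, z) ⟨hc1, thickening_subset_cthickening δ X hz⟩
      rw [Real.norm_eq_abs] at h2
      have h3 := (le_abs_self _).trans h2
      have h4 := norm_iter_le h.d2 hA1 hcA' (g^[m] z) 0
      rw [Function.iterate_zero, id, pow_zero, one_mul] at h4
      refine h4.trans ?_
      rw [hR]
      exact mul_le_mul_of_nonneg_left (Real.exp_le_exp.2 (h1.trans h3)) (by positivity)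
    have hcon' := hcon c (B c 0) g (hcb.trans (min_le_left _ _))
      (((hgi 1).1.mono hU).mono hballU) (fun z hz => hbd 1 z (hballU hz)) (fun z hz => hgf z (hU (hballU hz))) hgb
    have hVit' := hVit (g^[m]) b0 ((hgi m).1.mono hU) (hbd m) (by
      intro z hz
      rw [mem_ball, dist_eq_norm] at hz
      have h1 : ‖z - B c 0‖ ≤ 2 * r := by
        calc ‖z - B c 0‖ = ‖(z - b0) - (B c 0 - b0)‖ := by ring_nf
          _ ≤ ‖z - b0‖ + ‖B c 0 - b0‖ := norm_sub_le _ _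
          _ ≤ 2 * r := by
            have := hcb.trans (min_le_left _ _)
            linarith
      have h2 := hcon' z h1 m
      have h3 : μ ^ m ≤ εv / (4 * r) := (pow_le_pow_of_le_one hμ0 hμ1.le hm).trans hm₀.le
      have h4 : μ ^ m * ‖z - B c 0‖ ≤ εv / 2 := by
        calc μ ^ m * ‖z - B c 0‖ ≤ εv / (4 * r) * (2 * r) := mul_le_mul h3 h1 (norm_nonneg _) (by positivity)
          _ = εv / 2 := by field_simp; norm_num
      calc ‖g^[m] z - b0‖ = ‖(g^[m] z - B c 0) + (B c 0 - b0)‖ := by ring_nf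
        _ ≤ ‖g^[m] z - B c 0‖ + ‖B c 0 - b0‖ := norm_add_le _ _
        _ ≤ εv := by
          have := hcb.trans (min_le_right _ _)
          linarith)
    -- the rays
    have hiter : ∀ k : ℕ, k ≤ m → g^[k] (Φ c (zt s' t')) = Φ c (zt (s' / (d : ℝ) ^ k) (t' / (d : ℝ) ^ k)) := by
      intro k
      induction k with
      | zero => intro _; simp
      | succ k ih =>
        intro hk
        have hdk : (1 : ℝ) ≤ (d : ℝ) ^ k := one_le_pow₀ (by linarith)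
        have hdk0 : (0 : ℝ) < (d : ℝ) ^ k := by positivity
        have h1 : s' / (d : ℝ) ^ m ≤ s' / (d : ℝ) ^ k :=
          div_le_div_of_nonneg_left hs'.le hdk0 (pow_le_pow_right₀ (by linarith) (by omega))
        have h2 : θ - 1 < t' / (d : ℝ) ^ k := by
          rw [lt_div_iff₀ hdk0]
          have h3 : x₂ - 1 ≤ (x₂ - 1) / d := by
            rw [le_div_iff₀ hd0]
            nlinarith
          have h4 := ht'.1
          nlinarith
        have h5 : t' / (d : ℝ) ^ k < θ := by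
          rw [div_lt_iff₀ hdk0]
          have h3 : x₁ / d ≤ x₁ := div_le_self a1.le (by linarith)
          have h4 := ht'.2
          nlinarith
        rw [Function.iterate_succ_apply', ih (by omega), hgr _ _ (hGs.trans_le h1) h2 h5, div_div, div_div,
          ← pow_succ]
    have h6 := hVit' _ (thickening_subset_cthickening _ _ hGX)
    rw [hiter m le_rfl] at h6
    exact h6
  refine ⟨m₀, fun m hm => ⟨fun s hs0 hs1 => ?_, fun t ht => ?_⟩⟩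
  · have hdm : (0 : ℝ) < (d : ℝ) ^ m := by positivity
    have hs' : 0 < (d : ℝ) ^ m * s := by positivity
    have hs'' : (d : ℝ) ^ m * s ≤ 1 / d := by
      rw [le_div_iff₀ (by positivity), pow_succ] at hs1
      rw [le_div_iff₀ hd0]
      linarith
    have hlt : (x₂ - 1) / (d : ℝ) ≤ x₁ / d := div_le_div_of_nonneg_right (by linarith) hd0.le
    have hgr : green d c0 0 < (d : ℝ) ^ m * s := by rw [h.conn]; exact hs'
    have k1 := key m hm ((d : ℝ) ^ m * s) (x₁ / d) hs' ⟨hlt, le_rfl⟩ (by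
      rw [← h.rD1.eq c0 hc0 _ hgr]
      exact Or.inl (Or.inl (Or.inr ⟨_, ⟨hs'.le, hs''⟩, rfl⟩)))
    have k2 := key m hm ((d : ℝ) ^ m * s) ((x₂ - 1) / d) hs' ⟨le_rfl, hlt⟩ (by
      rw [← h.rD2.eq c0 hc0 _ hgr]
      exact Or.inl (Or.inr ⟨_, ⟨hs'.le, hs''⟩, rfl⟩))
    rw [mul_div_cancel_left₀ _ hdm.ne', div_div, ← pow_succ'] at k1 k2
    exact ⟨k1, k2⟩
  · have hdm : (0 : ℝ) < (d : ℝ) ^ m := by positivity
    have hdm1 : (0 : ℝ) < (d : ℝ) ^ (m + 1) := by positivity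
    have ht' : (d : ℝ) ^ m * t ∈ Icc ((x₂ - 1) / (d : ℝ)) (x₁ / d) := by
      obtain ⟨h1, h2⟩ := ht
      rw [div_le_iff₀ hdm1, pow_succ] at h1
      rw [le_div_iff₀ hdm1, pow_succ] at h2
      constructor
      · rw [div_le_iff₀ hd0]
        linarith
      · rw [le_div_iff₀ hd0]
        linarith
    have k1 := key m hm (1 / d) ((d : ℝ) ^ m * t) (by positivity) ht' (Or.inl (Or.inl (Or.inl ⟨_, ht', rfl⟩)))
    rw [mul_div_cancel_left₀ _ hdm.ne', div_div, ← pow_succ'] at k1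
    exact k1

end Pool.Agent.Y333.LC
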